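import Pool.Agent.H43.PS.Targets2

/-! PSL: the psd lemma (helper76). -/

namespace H76.PS

open Matrix Finset H43.PS

open scoped MatrixOrder in
theorem trace_mul_nn {κ : Type} [Fintype κ] [DecidableEq κ] (P S : Matrix κ κ ℝ)
    (hP : P.PosSemidef) (hS : S.PosSemidef) : 0 ≤ (P * S).trace := by
  have h1 : (CFC.sqrt S).PosSemidef := (CFC.sqrt_nonneg S).posSemidef
  have h2 : CFC.sqrt S * CFC.sqrt S = S := CFC.sqrt_mul_sqrt_self S hS.nonneg
  have h3 : (P * S).trace = (CFC.sqrt S * P * (CFC.sqrt S)ᴴ).trace := by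
    rw [h1.isHermitian.eq]
    conv_lhs => rw [← h2]
    rw [← Matrix.mul_assoc, Matrix.trace_mul_comm, ← Matrix.mul_assoc]
  rw [h3]
  exact (hP.mul_mul_conjTranspose_same _).trace_nonneg

theorem tp_nn {κ : Type} [Fintype κ] [DecidableEq κ] (p : ℝ) (A : Matrix κ κ ℝ)
    (hA : A.PosSemidef) : 0 ≤ tp p A := by
  unfold tp tf fm
  rw [dif_pos hA.isHermitian]
  have h1 : (diagonal (fun i => (hA.isHermitian.eigenvalues i) ^ p)).PosSemidef := by
    apply Matrix.PosSemidef.diagonal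
    intro i
    exact Real.rpow_nonneg (hA.eigenvalues_nonneg i) p
  have h2 := (h1.mul_mul_conjTranspose_same
    (hA.isHermitian.eigenvectorUnitary : Matrix κ κ ℝ)).trace_nonneg
  rw [Matrix.conjTranspose_eq_transpose_of_trivial] at h2
  exact h2

theorem av_mono {X : Type} [Fintype X] (f g : X → ℝ) (h : ∀ x, f x ≤ g x) : av f ≤ av g := by
  unfold av
  exact mul_le_mul_of_nonneg_left (Finset.sum_le_sum fun x _ => h x) (by positivity)

theorem av_nn {X : Type} [Fintype X] (f : X → ℝ) (h : ∀ x, 0 ≤ f x) : 0 ≤ av f := by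
  unfold av
  exact mul_nonneg (by positivity) (Finset.sum_nonneg fun x _ => h x)

theorem av_const {X : Type} [Fintype X] (hX : 0 < Fintype.card X) (c : ℝ) :
    av (fun _ : X => c) = c := by
  unfold av
  have : (Fintype.card X : ℝ) ≠ 0 := by
    have : (0 : ℝ) < Fintype.card X := by exact_mod_cast hX
    exact this.ne'
  rw [Finset.sum_const, Finset.card_univ, nsmul_eq_mul]
  field_simp

theorem av_add {X : Type} [Fintype X] (f g : X → ℝ) :
    av (fun x => f x + g x) = av f + av g := by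
  unfold av
  rw [Finset.sum_add_distrib, mul_add]

theorem av_sub {X : Type} [Fintype X] (f g : X → ℝ) :
    av (fun x => f x - g x) = av f - av g := by
  unfold av
  rw [Finset.sum_sub_distrib, mul_sub]

theorem av_smul {X : Type} [Fintype X] (c : ℝ) (f : X → ℝ) :
    av (fun x => c * f x) = c * av f := by
  unfold av
  rw [← Finset.mul_sum]
  ring

theorem av_comm {X Y : Type} [Fintype X] [Fintype Y] (f : X → Y → ℝ) :
    av (fun x => av (fun y => f x y)) = av (fun y => av (fun x => f x y)) := by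
  have h1 : ∀ x, av (fun y => f x y) = (Fintype.card Y : ℝ)⁻¹ * ∑ y, f x y := fun x => rfl
  have h2 : ∀ y, av (fun x => f x y) = (Fintype.card X : ℝ)⁻¹ * ∑ x, f x y := fun x => rfl
  unfold av
  rw [← Finset.mul_sum, ← Finset.mul_sum, Finset.sum_comm]
  ring

theorem av_shift {Θ : Type} [Fintype Θ] [AddCommGroup Θ] {N : ℕ} (f : (Fin N → Θ) → ℝ)
    (z : Fin N → Θ) : av (fun g : Fin N → Θ => f (fun i => g i + z i)) = av f := by
  unfold av
  congr 1
  exact Equiv.sum_comp (Equiv.addRight z) f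

theorem av_ind {Θ : Type} [Fintype Θ] {N q : ℕ} (A : Finset (Fin N → Fin q → Θ))
    [DecidablePred (fun a => a ∈ A)] (hq : 0 < q) (c : ℝ) :
    av (fun ab : (Fin N → Fin q → Θ) × (Fin N → Fin q) => if ab.1 ∈ A then c else 0) =
      share A * c := by
  unfold av share
  have hB : (0 : ℝ) < (Fintype.card (Fin N → Fin q) : ℝ) := by
    have : 0 < Fintype.card (Fin N → Fin q) :=
      Fintype.card_pos_iff.mpr ⟨fun _ => ⟨0, hq⟩⟩
    exact_mod_cast this
  rw [Fintype.sum_prod_type, Fintype.card_prod]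
  have h1 : ∀ x : Fin N → Fin q → Θ, (∑ y : Fin N → Fin q, if (x, y).1 ∈ A then c else 0) =
      (Fintype.card (Fin N → Fin q) : ℝ) * (if x ∈ A then c else 0) := by
    intro x
    have h2 : ∀ y : Fin N → Fin q, (if (x, y).1 ∈ A then c else 0) = (if x ∈ A then c else 0) :=
      fun _ => rfl
    rw [Finset.sum_congr rfl fun y _ => h2 y, Finset.sum_const, Finset.card_univ, nsmul_eq_mul]
  have h3 : Finset.univ.filter (fun x => x ∈ A) = A := by ext x; simp
  rw [Finset.sum_congr rfl fun x _ => h1 x, ← Finset.mul_sum, ← Finset.sum_filter, h3,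
    Finset.sum_const, nsmul_eq_mul]
  push_cast
  rw [mul_inv]
  field_simp

/-- `XX` is monotone in `W ≥ 0` and nonnegative. -/
theorem XX_mono (Q q p σ r κ₀ W W' : ℝ) (N h : ℕ) (hQ : 0 ≤ Q) (hq : 0 ≤ q) (hp : 1 < p)
    (hσ : 0 ≤ σ) (hr : 0 ≤ r) (hκ : 0 ≤ κ₀) (hW : 0 ≤ W) (hWW : W ≤ W') :
    0 ≤ XX Q q p σ r κ₀ W N h ∧ XX Q q p σ r κ₀ W N h ≤ XX Q q p σ r κ₀ W' N h := by
  have hp1 : 0 < p - 1 := by linarith
  have hK : 0 ≤ KK Q q p σ := by
    unfold KK
    have : 0 ≤ Q / ((p - 1) * q) := div_nonneg hQ (mul_nonneg hp1.le hq)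
    positivity
  have hK2 : 0 ≤ KK Q q p σ ^ N * W := mul_nonneg (pow_nonneg hK _) hW
  have hK3 : KK Q q p σ ^ N * W ≤ KK Q q p σ ^ N * W' :=
    mul_le_mul_of_nonneg_left hWW (pow_nonneg hK _)
  have h1 : 0 ≤ (KK Q q p σ ^ N * W) ^ (1 / p) := Real.rpow_nonneg hK2 _
  have h2 : (KK Q q p σ ^ N * W) ^ (1 / p) ≤ (KK Q q p σ ^ N * W') ^ (1 / p) :=
    Real.rpow_le_rpow hK2 hK3 (by positivity)
  have h3 : 0 ≤ (r * (Q + 1) ^ N) ^ (1 - 1 / p) := Real.rpow_nonneg (by positivity) _
  have h4 : 0 ≤ 2 ^ N * (σ⁻¹) ^ (2 * (h + 1)) * κ₀ := by positivity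
  unfold XX
  exact ⟨mul_nonneg h4 (mul_nonneg h3 h1),
    mul_le_mul_of_nonneg_left (mul_le_mul_of_nonneg_left h2 h3) h4⟩

theorem two_sqrt_le (Y X t : ℝ) (hY : 0 ≤ Y) (hX : 0 ≤ X) (ht : 0 < t) :
    2 * Real.sqrt (Y * X) ≤ t * Y + X / t := by
  have h1 : Real.sqrt (Y * X) = Real.sqrt (t * Y) * Real.sqrt (X / t) := by
    rw [← Real.sqrt_mul (by positivity)]
    congr 1
    field_simp
  have h2 := Real.mul_self_sqrt (show 0 ≤ t * Y by positivity)
  have h3 := Real.mul_self_sqrt (show 0 ≤ X / t by positivity)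
  rw [h1]
  nlinarith [mul_self_nonneg (Real.sqrt (t * Y) - Real.sqrt (X / t))]

/-- the final inequality. -/
theorem final_ineq (δ μ M m X Y : ℝ) (hδ : 0 < δ) (hm : 0 < m) (hM : 1 ≤ M) (hδm : δ ≤ m)
    (hX : 0 ≤ X) (hY : Y ≤ m * μ)
    (h : δ * μ ≤ M * (δ / (2 * M * m) * Y + X / (δ / (2 * M * m)) + X)) :
    δ ^ 2 * μ ≤ 16 * M ^ 2 * m * X := by
  have hM0 : 0 < M := by linarith
  have e1 : M * (δ / (2 * M * m) * Y) ≤ δ * μ / 2 := by
    have : M * (δ / (2 * M * m) * Y) = δ / (2 * m) * Y := by field_simp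
    rw [this]
    calc δ / (2 * m) * Y ≤ δ / (2 * m) * (m * μ) := mul_le_mul_of_nonneg_left hY (by positivity)
      _ = δ * μ / 2 := by field_simp
  have e2 : M * (X / (δ / (2 * M * m))) = 2 * M ^ 2 * m * X / δ := by field_simp
  have e3 : M * (δ / (2 * M * m) * Y + X / (δ / (2 * M * m)) + X) =
      M * (δ / (2 * M * m) * Y) + M * (X / (δ / (2 * M * m))) + M * X := by ring
  rw [e3, e2] at h
  have e4 : δ * μ / 2 ≤ 2 * M ^ 2 * m * X / δ + M * X := by linarith
  have e5 : δ * (δ * μ / 2) ≤ δ * (2 * M ^ 2 * m * X / δ + M * X) :=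
    mul_le_mul_of_nonneg_left e4 hδ.le
  have e6 : δ * (2 * M ^ 2 * m * X / δ + M * X) = 2 * M ^ 2 * m * X + δ * (M * X) := by
    field_simp
  rw [e6] at e5
  have e7 : δ * (M * X) ≤ m * (M * X) := mul_le_mul_of_nonneg_right hδm (by positivity)
  have e8 : m * (M * X) ≤ M ^ 2 * m * X := by
    have : 0 ≤ m * X * (M * (M - 1)) := by
      have : 0 ≤ M - 1 := by linarith
      positivity
    nlinarith
  have e9 : 0 ≤ M ^ 2 * m * X := by positivity
  nlinarith

theorem PSL (hSDP : T_SDP) (hNRM : T_NRM) (hTRP : T_TRP) (hLSH : T_LSH) : T_PSL := by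
  classical
  intro Θ _ _ _ p σ hp1 hp2 hσ N q h hq ι _ _ A P S D v M m δ hP hS hDM hPD hD1 hDv hv0 hvm hm hδ hvt
  have hΘ : 0 < Fintype.card Θ := Fintype.card_pos_iff.mpr ⟨0⟩
  have hG : 0 < Fintype.card (Fin N → Θ) := Fintype.card_pos_iff.mpr ⟨0⟩
  have hM : 1 ≤ M := by
    rw [← hD1, ← av_const hG M]
    exact av_mono _ _ fun z => (abs_le.mp (hDM z)).2
  have hμ : 0 ≤ share A := by unfold share; positivity
  have hσ0 : (0 : ℝ) ≤ σ := by linarith
  have hXW := fun W W' hW hWW => XX_mono (Fintype.card Θ) q p σ (Fintype.card ι) (2 * m) W W' N h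
    (by positivity) (by positivity) hp1 hσ0 (by positivity) (by positivity) hW hWW
  have hWn : 0 ≤ share A * (Fintype.card ι : ℝ) ^ p := by positivity
  rcases A.eq_empty_or_nonempty with hA | hA
  · have : share A = 0 := by unfold share; rw [hA]; simp
    have h1 := (hXW _ _ hWn le_rfl).1
    rw [this] at h1 ⊢
    have h2 : 0 ≤ 16 * M ^ 2 * m := by positivity
    have h3 := mul_nonneg h2 h1
    simpa using h3
  -- normalisation
  obtain ⟨P', S', hP', hS', hPS, htP, htS⟩ := hNRM ι {s // s ∈ A}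
    ((Fin N → Θ) × (Fin N → Fin q)) (fun s => P s.1) (fun b => S b.1 b.2) m hm
    (fun a => hP a.1 a.2) (fun b => hS b.1 b.2) (by
      intro a b
      rw [← hvt a.1 a.2 b.1 b.2]
      have := hvm (fun i => b.1 i + a.1 i (b.2 i))
      linarith)
  let P2 : (Fin N → Fin q → Θ) → Matrix ι ι ℝ := fun s => if hs : s ∈ A then P' ⟨s, hs⟩ else 0
  have hP2 : ∀ a, (P2 a).PosSemidef := by
    intro a
    by_cases ha : a ∈ A
    · simp only [P2, dif_pos ha]; exact hP' _
    · simp only [P2, dif_neg ha]; exact PosSemidef.zero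
  have htr : ∀ a g ω, (P2 a * S' (g, ω)).trace =
      if a ∈ A then v (fun i => g i + a i (ω i)) - δ else 0 := by
    intro a g ω
    by_cases ha : a ∈ A
    · simp only [P2, dif_pos ha, if_pos ha]
      rw [hPS ⟨a, ha⟩ (g, ω), hvt a ha g ω]
    · simp only [P2, dif_neg ha, if_neg ha, Matrix.zero_mul, Matrix.trace_zero]
  have hnn : ∀ a g ω, 0 ≤ (P2 a * S' (g, ω)).trace := fun a g ω =>
    trace_mul_nn _ _ (hP2 a) (hS' _)
  have hδm : δ ≤ m := by
    obtain ⟨a, ha⟩ := hA
    have h1 := hnn a 0 (fun _ => ⟨0, hq⟩)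
    rw [htr, if_pos ha] at h1
    have h2 := hvm (fun i => (0 : Fin N → Θ) i + a i ((fun _ => ⟨0, hq⟩ : Fin N → Fin q) i))
    linarith
  -- the weights
  have htp : av (fun a => tp p (P2 a)) ≤ share A * (Fintype.card ι : ℝ) ^ p := by
    have h1 : ∀ a, tp p (P2 a) ≤ if a ∈ A then (Fintype.card ι : ℝ) ^ p else 0 := by
      intro a
      have h2 := (hTRP ι p (P2 a) hp1 (hP2 a)).2
      by_cases ha : a ∈ A
      · rw [if_pos ha]
        refine h2.trans (Real.rpow_le_rpow (hP2 a).trace_nonneg ?_ (by linarith))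
        simp only [P2, dif_pos ha]
        exact htP _
      · rw [if_neg ha]
        refine h2.trans (le_of_eq ?_)
        simp only [P2, dif_neg ha, Matrix.trace_zero]
        exact Real.zero_rpow (by linarith)
    refine (av_mono _ _ h1).trans (le_of_eq ?_)
    unfold av share
    rw [← Finset.sum_filter, Finset.sum_const, nsmul_eq_mul, Finset.filter_mem_eq_inter,
      Finset.univ_inter]
    field_simp
  have htp0 : 0 ≤ av (fun a => tp p (P2 a)) := av_nn _ fun a => tp_nn p _ (hP2 a)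
  obtain ⟨hX0, hX1⟩ := hXW _ _ htp0 htp
  set X0 : ℝ := XX (Fintype.card Θ) q p σ (Fintype.card ι) (2 * m) (av (fun a => tp p (P2 a))) N h
    with hX0def
  set X : ℝ := XX (Fintype.card Θ) q p σ (Fintype.card ι) (2 * m)
    (share A * (Fintype.card ι : ℝ) ^ p) N h with hXdef
  have hXn : 0 ≤ X := hX0.trans hX1
  -- the main lemma, for every g
  set t : ℝ := δ / (2 * M * m) with ht
  have htpos : 0 < t := by rw [ht]; positivity
  have key : ∀ g : Fin N → Θ,
      - (M * (t * av (fun ab : (Fin N → Fin q → Θ) × (Fin N → Fin q) =>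
        (P2 ab.1 * S' (g, ab.2)).trace) + X / t + X)) ≤
      av (fun ab : (Fin N → Fin q → Θ) × (Fin N → Fin q) =>
        D (fun i => g i + ab.1 i (ab.2 i)) * (P2 ab.1 * S' (g, ab.2)).trace) := by
    intro g
    have h1 := hSDP Θ p σ hp1 hp2 hσ hΘ N q h hq ι P2 (fun ω => S' (g, ω))
      (fun z => D (fun i => g i + z i)) M (2 * m) hP2 (fun b => hS' _) (fun b => htS _)
      (fun z => hDM _) (hLSH Θ N h D g hPD)
    refine le_trans ?_ h1
    apply neg_le_neg
    apply mul_le_mul_of_nonneg_left _ (by linarith)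
    have hY : 0 ≤ av (fun ab : (Fin N → Fin q → Θ) × (Fin N → Fin q) =>
        (P2 ab.1 * S' (g, ab.2)).trace) := av_nn _ fun ab => hnn _ _ _
    have h2 := two_sqrt_le _ X0 t hY hX0 htpos
    have h3 : X0 / t ≤ X / t := div_le_div_of_nonneg_right hX1 htpos.le
    linarith
  -- average over g
  have havg := av_mono _ _ key
  have hR : av (fun g : Fin N → Θ => av (fun ab : (Fin N → Fin q → Θ) × (Fin N → Fin q) =>
        D (fun i => g i + ab.1 i (ab.2 i)) * (P2 ab.1 * S' (g, ab.2)).trace)) =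
      share A * (-δ) := by
    rw [av_comm, ← av_ind A hq (-δ)]
    congr 1
    funext ab
    by_cases ha : ab.1 ∈ A
    · rw [if_pos ha]
      have h1 : (fun g : Fin N → Θ => D (fun i => g i + ab.1 i (ab.2 i)) *
          (P2 ab.1 * S' (g, ab.2)).trace) =
          fun g : Fin N → Θ => (fun z : Fin N → Θ => D z * v z - δ * D z)
            (fun i => g i + (fun i => ab.1 i (ab.2 i)) i) := by
        funext g
        rw [htr, if_pos ha]
        ring
      rw [h1, av_shift (fun z : Fin N → Θ => D z * v z - δ * D z) (fun i => ab.1 i (ab.2 i)),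
        av_sub, av_smul, hD1, hDv]
      ring
    · rw [if_neg ha]
      have h1 : (fun g : Fin N → Θ => D (fun i => g i + ab.1 i (ab.2 i)) *
          (P2 ab.1 * S' (g, ab.2)).trace) = fun _ => 0 := by
        funext g
        rw [htr, if_neg ha, mul_zero]
      rw [h1, av_const hG]
  have hYY : av (fun g : Fin N → Θ => av (fun ab : (Fin N → Fin q → Θ) × (Fin N → Fin q) =>
        (P2 ab.1 * S' (g, ab.2)).trace)) ≤ m * share A := by
    rw [av_comm, mul_comm, ← av_ind A hq m]
    apply av_mono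
    intro ab
    by_cases ha : ab.1 ∈ A
    · rw [if_pos ha, ← av_const hG m]
      apply av_mono
      intro g
      rw [htr, if_pos ha]
      have := hvm (fun i => g i + ab.1 i (ab.2 i))
      linarith
    · rw [if_neg ha, ← av_const hG 0]
      apply av_mono
      intro g
      rw [htr, if_neg ha]
  rw [hR] at havg
  have hL : av (fun g : Fin N → Θ =>
      - (M * (t * av (fun ab : (Fin N → Fin q → Θ) × (Fin N → Fin q) =>
        (P2 ab.1 * S' (g, ab.2)).trace) + X / t + X))) =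
      - (M * (t * av (fun g : Fin N → Θ => av (fun ab : (Fin N → Fin q → Θ) × (Fin N → Fin q) =>
        (P2 ab.1 * S' (g, ab.2)).trace)) + X / t + X)) := by
    have h1 : (fun g : Fin N → Θ =>
      - (M * (t * av (fun ab : (Fin N → Fin q → Θ) × (Fin N → Fin q) =>
        (P2 ab.1 * S' (g, ab.2)).trace) + X / t + X))) =
        fun g : Fin N → Θ => (-(M * t)) * av (fun ab : (Fin N → Fin q → Θ) × (Fin N → Fin q) =>
        (P2 ab.1 * S' (g, ab.2)).trace) + (-(M * (X / t + X))) := by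
      funext g
      ring
    rw [h1, av_add, av_smul, av_const hG]
    ring
  rw [hL] at havg
  refine final_ineq δ (share A) M m X _ hδ hm hM hδm hXn hYY ?_
  rw [← ht]
  linarith

end H76.PS
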